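import Pool.Agent.MP_b10ab5_co.G13

set_option autoImplicit false

namespace Pool.Agent.Results.MP_b10ab5_co.CubePlusDiagonal

open MvPolynomial Pool.Agent.MP_b10ab5_co

/-- `Admissible ends e f S A C` says: `A ⊆ E ∖ {e,f}` is a spanning forest, the set `A ∪ {e,f}`
contains exactly one cycle, this cycle is `C`, and `S ∪ {e,f} ⊆ C`. For given `S` the sets `A`
occurring here form `𝒜(S)`, and `C = C(S,A)`. -/
def Admissible {V E : Type} [DecidableEq E] (ends : E → Sym2 V) (e f : E)
    (S A C : Finset E) : Prop :=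
  e ∉ A ∧ f ∉ A ∧ IsForest ends A ∧
    (IsCycle ends C ∧ C ⊆ insert e (insert f A) ∧
      ∀ C', IsCycle ends C' → C' ⊆ insert e (insert f A) → C' = C) ∧
    insert e (insert f S) ⊆ C

open Classical in
/-- The Rayleigh difference `ΔG{e,f}` is SOS: there are signs `c(S,C)` (units of `ℤ`) with
`ΔG{e,f} = ∑_{S ∈ 𝒮} y^S (∑_{A ∈ 𝒜(S)} c(S, C(S,A)) y^{A ∖ S})²`, where `𝒮` is the set of all
`S ⊆ E ∖ {e,f}` such that `S ∪ {e,f}` lies inside some cycle. -/
def IsSOS {V E : Type} [Fintype E] [DecidableEq E] (ends : E → Sym2 V) (e f : E) : Prop :=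
  ∃ c : Finset E → Finset E → ℤˣ,
    rayleighDiff ends e f =
      ∑ S : Finset E with (e ∉ S ∧ f ∉ S ∧ ∃ C, IsCycle ends C ∧ insert e (insert f S) ⊆ C),
        (∏ g ∈ S, X g) *
          (∑ A : Finset E, ∑ C : Finset E with Admissible ends e f S A C,
            MvPolynomial.C ((c S C : ℤˣ) : ℤ) * ∏ g ∈ A \ S, X g) ^ 2

/-- The set `𝒜(S)` read word for word. `LiteralAdmissible ends e f S A C` says: `A ⊆ E ∖ {e,f}` is a
spanning forest, and `C` is the only cycle with `S ∪ {e,f} ⊆ C ⊆ A ∪ {e,f}` (the set `A ∪ {e,f}` may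
contain other cycles). -/
def LiteralAdmissible {V E : Type} [DecidableEq E] (ends : E → Sym2 V) (e f : E)
    (S A C : Finset E) : Prop :=
  e ∉ A ∧ f ∉ A ∧ IsForest ends A ∧
    IsCycle ends C ∧ insert e (insert f S) ⊆ C ∧ C ⊆ insert e (insert f A) ∧
      ∀ C', IsCycle ends C' → insert e (insert f S) ⊆ C' → C' ⊆ insert e (insert f A) → C' = C

open Classical in
/-- The Rayleigh difference `ΔG{e,f}` is SOS, with the set `𝒜(S)` read word for word. -/
def IsLiteralSOS {V E : Type} [Fintype E] [DecidableEq E] (ends : E → Sym2 V) (e f : E) : Prop :=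
  ∃ c : Finset E → Finset E → ℤˣ,
    rayleighDiff ends e f =
      ∑ S : Finset E with (e ∉ S ∧ f ∉ S ∧ ∃ C, IsCycle ends C ∧ insert e (insert f S) ⊆ C),
        (∏ g ∈ S, X g) *
          (∑ A : Finset E, ∑ C : Finset E with LiteralAdmissible ends e f S A C,
            MvPolynomial.C ((c S C : ℤˣ) : ℤ) * ∏ g ∈ A \ S, X g) ^ 2

/-- The 3-cube together with one long diagonal, as a graph with vertices `0, …, 7` and thirteen
edges. Edge number `1` joins `2` and `3` and is the long diagonal; the other twelve edges form a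
3-cube in which `2` and `3` are opposite vertices, and edge number `0` joins `0` and `1`. -/
def cubePlusDiagonal : Fin 13 → Sym2 (Fin 8) :=
  ![s(0, 1), s(2, 3), s(4, 5), s(6, 7), s(1, 2), s(3, 4), s(5, 6), s(7, 0), s(1, 4), s(5, 2),
    s(3, 6), s(7, 2), s(3, 0)]

lemma adm_sub (S A C : Finset (Fin 13)) (h : Admissible ends 0 1 S A C)
    (hS : (0 : Fin 13) ∉ S ∧ (1 : Fin 13) ∉ S) : S ⊆ A := by
  intro g hg
  have h1 := h.2.2.2.1.2.1 (h.2.2.2.2 (Finset.mem_insert_of_mem (Finset.mem_insert_of_mem hg)))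
  rw [Finset.mem_insert, Finset.mem_insert] at h1
  rcases h1 with h1 | h1 | h1
  · subst h1; exact absurd hg hS.1
  · subst h1; exact absurd hg hS.2
  · exact h1

/-- Codes of edge sets not containing the edges `0` and `1`. -/
def good (a : ℕ) : Prop := a < 8192 ∧ a &&& 3 = 0

lemma good_zero : good 0 := ⟨by norm_num, by simp⟩

lemma good_or {a b : ℕ} (ha : good a) (hb : good b) : good (a ||| b) := by
  refine ⟨Nat.or_lt_two_pow (n := 13) ha.1 hb.1, ?_⟩
  rw [Nat.and_or_distrib_right, ha.2, hb.2]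
  rfl

lemma good_pow (i : Fin 13) (hi : 2 ≤ i.val) : good (2 ^ i.val) := by
  revert i
  unfold good
  decide +kernel

lemma fs_three : fs 13 3 = {0, 1} := by decide +kernel

lemma fs_or_three (a : ℕ) : fs 13 (a ||| 3) = insert 0 (insert 1 (fs 13 a)) := by
  rw [fs_or, fs_three]
  ext g
  simp only [Finset.mem_union, Finset.mem_insert, Finset.mem_singleton]
  tauto

lemma good_notMem {a : ℕ} (ha : good a) : (0 : Fin 13) ∉ fs 13 a ∧ (1 : Fin 13) ∉ fs 13 a := by
  have h0 : (a &&& 3).testBit 0 = false := by rw [ha.2]; simp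
  have h1 : (a &&& 3).testBit 1 = false := by rw [ha.2]; simp
  rw [Nat.testBit_land] at h0 h1
  have h2 : Nat.testBit 3 0 = true := by decide
  have h3 : Nat.testBit 3 1 = true := by decide
  rw [h2, Bool.and_true] at h0
  rw [h3, Bool.and_true] at h1
  rw [mem_fs, mem_fs]
  exact ⟨by simpa using h0, by simpa using h1⟩

lemma cc_land (k : ℕ) (hk : k ≠ 0) (hk2 : k < 10) : cc k &&& 3 = 3 := by
  have h : ∀ k < 10, k ≠ 0 → cc k &&& 3 = 3 := by decide +kernel
  exact h k hk2 hk

lemma cc_lt (k : ℕ) : cc k < 8192 := by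
  unfold cc
  by_cases h : k < 10
  · revert k
    decide +kernel
  · rw [List.getD_eq_default _ _ (by simp [ccL]; omega)]
    norm_num

lemma idx_spec {a : ℕ} (ha : good a) :
    (match subL (a ||| 3) with
    | [c] => if c &&& 3 == 3 then (!(idx a == 0)) && (cc (idx a) == c)
        else idx a == 0
    | _ => idx a == 0) = true := by
  have h := (allBelow_iff _ _).mp idx_check (a / 4) (by have := ha.1; omega)
  have h4 : 4 * (a / 4) = a := by
    have h5 : a % 4 = 0 := by
      have h6 := Nat.and_two_pow_sub_one_eq_mod a 2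
      have h7 : 2 ^ 2 - 1 = 3 := by norm_num
      rw [h7, ha.2] at h6
      omega
    omega
  rw [h4] at h
  exact h

/-- Characterisation of admissible triples. -/
lemma adm_iff {a : ℕ} (ha : good a) (S C : Finset (Fin 13)) :
    Admissible ends 0 1 S (fs 13 a) C ↔
      (idx a ≠ 0 ∧ C = fs 13 (cc (idx a))) ∧ insert 0 (insert 1 S) ⊆ C := by
  have h3 : (a ||| 3) < 8192 := Nat.or_lt_two_pow (n := 13) ha.1 (by norm_num)
  have hspec := idx_spec ha
  constructor
  · rintro ⟨-, -, -, ⟨hC1, hC2, hC3⟩, hC4⟩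
    refine ⟨?_, hC4⟩
    rw [← fs_or_three] at hC2 hC3
    obtain ⟨c0, hc0, rfl⟩ := fs_surj 13 C
    have hc0' := (fs_subset hc0).mp hC2
    have hmem : ∀ c ∈ subL (a ||| 3), c = c0 := by
      intro c hc
      rw [subL, List.mem_filter] at hc
      have h1 : c &&& (a ||| 3) = c := by simpa using hc.2
      exact fs_inj (cycL_lt c hc.1) hc0
        (hC3 _ (cycL_isCycle c hc.1) ((fs_subset (cycL_lt c hc.1)).mpr h1))
    have hlen : (subL (a ||| 3)).length ≤ 1 := by
      by_contra hcon
      push Not at hcon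
      have hnd : (subL (a ||| 3)).Nodup := cycL_nodup.filter _
      have h1 : subL (a ||| 3) = List.replicate (subL (a ||| 3)).length c0 :=
        List.eq_replicate_of_mem hmem
      rw [h1] at hnd
      have := List.nodup_replicate.mp hnd
      omega
    have hc0L : c0 ∈ cycL := by
      rcases cycle_code c0 hc0 hC1 with h1 | h1
      · exact h1
      · exfalso
        have h2 : (subL c0).length ≤ (subL (a ||| 3)).length := by
          unfold subL
          apply List.Sublist.length_le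
          apply List.monotone_filter_right
          intro c hc
          have hc' : c &&& c0 = c := by simpa using hc
          simpa using land_trans hc' hc0'
        omega
    have hsub : subL (a ||| 3) = [c0] := by
      have h1 : c0 ∈ subL (a ||| 3) := List.mem_filter.mpr ⟨hc0L, by simpa using hc0'⟩
      obtain ⟨b, hb⟩ := List.length_eq_one_iff.mp
        (le_antisymm hlen (List.length_pos_of_mem h1))
      rw [hb] at h1 ⊢
      rw [List.mem_singleton] at h1
      rw [h1]
    rw [hsub] at hspec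
    have h01 : c0 &&& 3 = 3 := by
      have h5 : fs 13 3 ⊆ fs 13 c0 := by
        rw [fs_three]
        refine Finset.Subset.trans ?_ hC4
        intro g hg
        simp only [Finset.mem_insert, Finset.mem_singleton] at hg ⊢
        tauto
      rw [Nat.land_comm]
      exact (fs_subset (by norm_num)).mp h5
    simp only [h01, beq_self_eq_true, if_true, Bool.and_eq_true, Bool.not_eq_true',
      beq_eq_false_iff_ne, beq_iff_eq] at hspec
    exact ⟨hspec.1, by rw [hspec.2]⟩
  · rintro ⟨⟨hidx, rfl⟩, hC4⟩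
    have hsub : subL (a ||| 3) = [cc (idx a)] := by
      rcases hL : subL (a ||| 3) with _ | ⟨c, _ | ⟨d, L⟩⟩
      · rw [hL] at hspec; simp [hidx] at hspec
      · rw [hL] at hspec
        by_cases h : c &&& 3 = 3
        · simp only [h, beq_self_eq_true, if_true, Bool.and_eq_true, beq_iff_eq] at hspec
          rw [hspec.2]
        · simp [h, hidx] at hspec
      · rw [hL] at hspec; simp [hidx] at hspec
    have hmem : cc (idx a) ∈ subL (a ||| 3) := by rw [hsub]; simp
    rw [subL, List.mem_filter] at hmem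
    have h1 : cc (idx a) &&& (a ||| 3) = cc (idx a) := by simpa using hmem.2
    have huniq : ∀ C', IsCycle ends C' → C' ⊆ fs 13 (a ||| 3) → C' = fs 13 (cc (idx a)) := by
      intro C' hC' hsubC
      obtain ⟨r, hr, rfl⟩ := fs_surj 13 C'
      have hr' := (fs_subset hr).mp hsubC
      rcases cycle_code r hr hC' with h2 | h2
      · have : r ∈ subL (a ||| 3) := List.mem_filter.mpr ⟨h2, by simpa using hr'⟩
        rw [hsub, List.mem_singleton] at this
        rw [this]
      · exfalso
        have h3 : (subL r).length ≤ (subL (a ||| 3)).length := by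
          unfold subL
          apply List.Sublist.length_le
          apply List.monotone_filter_right
          intro c hc
          have hc' : c &&& r = c := by simpa using hc
          simpa using land_trans hc' hr'
        rw [hsub] at h3
        simp at h3
        omega
    have hnm := good_notMem ha
    refine ⟨hnm.1, hnm.2, ?_, ⟨cycL_isCycle _ hmem.1, ?_, ?_⟩, hC4⟩
    · intro C' hC' hsubC
      have h2 := huniq C' hC' (by
        rw [fs_or_three]
        exact hsubC.trans ((Finset.subset_insert _ _).trans (Finset.subset_insert _ _)))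
      apply hnm.1
      apply hsubC
      rw [h2]
      exact hC4 (Finset.mem_insert_self _ _)
    · rw [← fs_or_three]
      exact (fs_subset (cc_lt _)).mpr h1
    · rw [← fs_or_three]
      exact huniq

lemma idx_lt (a : ℕ) (ha : good a) : idx a < 10 := by
  have hspec := idx_spec ha
  by_contra hcon
  push Not at hcon
  have h1 : cc (idx a) = 0 := by
    unfold cc
    rw [List.getD_eq_default _ _ (by simp [ccL]; omega)]
  have h0 : idx a ≠ 0 := by omega
  rcases hL : subL (a ||| 3) with _ | ⟨c, _ | ⟨d, L⟩⟩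
  · rw [hL] at hspec; simp [h0] at hspec
  · rw [hL] at hspec
    by_cases h : c &&& 3 = 3
    · simp only [h, beq_self_eq_true, if_true, Bool.and_eq_true, beq_iff_eq] at hspec
      rw [h1] at hspec
      rw [← hspec.2] at h
      simp at h
    · simp [h, h0] at hspec
  · rw [hL] at hspec; simp [h0] at hspec

/-- The sign attached to the code `s` and the `k`-th cycle. -/
def sg (c : Finset (Fin 13) → Finset (Fin 13) → ℤˣ) (s k : ℕ) : ℤ :=
  ((c (fs 13 s) (fs 13 (cc k)) : ℤˣ) : ℤ)

lemma sg_sq (c : Finset (Fin 13) → Finset (Fin 13) → ℤˣ) (s k : ℕ) : sg c s k * sg c s k = 1 := by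
  unfold sg
  rw [← Units.val_mul, Int.units_mul_self]
  rfl

open Classical in
lemma adm_sum (c : Finset (Fin 13) → Finset (Fin 13) → ℤˣ) {s a : ℕ} (hs : good s) (ha : good a) :
    (∑ C : Finset (Fin 13) with Admissible ends 0 1 (fs 13 s) (fs 13 a) C,
        ((c (fs 13 s) C : ℤˣ) : ℤ))
      = if idx a ≠ 0 ∧ s &&& cc (idx a) = s then sg c s (idx a) else 0 := by
  by_cases h : idx a ≠ 0 ∧ s &&& cc (idx a) = s
  · rw [if_pos h]
    have h1 : (Finset.univ.filter (fun C => Admissible ends 0 1 (fs 13 s) (fs 13 a) C))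
        = {fs 13 (cc (idx a))} := by
      ext C
      simp only [Finset.mem_filter, Finset.mem_univ, true_and, Finset.mem_singleton]
      rw [adm_iff ha]
      constructor
      · intro h2; exact h2.1.2
      · rintro rfl
        refine ⟨⟨h.1, rfl⟩, ?_⟩
        rw [← fs_or_three]
        refine (fs_subset (Nat.or_lt_two_pow (n := 13) hs.1 (by norm_num))).mpr ?_
        rw [Nat.and_or_distrib_right, h.2, Nat.land_comm 3, cc_land _ h.1 (idx_lt a ha)]
    rw [h1, Finset.sum_singleton]
    rfl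
  · rw [if_neg h]
    have h1 : (Finset.univ.filter (fun C => Admissible ends 0 1 (fs 13 s) (fs 13 a) C)) = ∅ := by
      rw [Finset.filter_eq_empty_iff]
      intro C _ h2
      rw [adm_iff ha] at h2
      apply h
      refine ⟨h2.1.1, ?_⟩
      have h3 := h2.2
      rw [h2.1.2] at h3
      exact (fs_subset hs.1).mp (((Finset.subset_insert _ _).trans (Finset.subset_insert _ _)).trans h3)
    rw [h1, Finset.sum_empty]

/-- The nonzero contributions to the coefficient of the sum of squares. -/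
def ctr (x2 s u w : ℕ) : List (ℕ × ℕ × ℕ) :=
  if (!(idx (s ||| (u ||| x2)) == 0)) && (s &&& cc (idx (s ||| (u ||| x2))) == s) &&
      (!(idx (s ||| (w ||| x2)) == 0)) && (s &&& cc (idx (s ||| (w ||| x2))) == s)
  then [(s, idx (s ||| (u ||| x2)), idx (s ||| (w ||| x2)))] else []

/-- The coefficient of the Rayleigh difference. -/
def lhs (l : List (Fin 13)) (x2 : ℕ) : ℤ :=
  sum2 l (fun u w =>
    (if forestB ((u ||| x2) ||| 1) then 1 else 0) * (if forestB ((w ||| x2) ||| 2) then 1 else 0)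
    - (if forestB (u ||| x2) then 1 else 0) * (if forestB ((w ||| x2) ||| 3) then 1 else 0))

/-- The number of diagonal contributions. -/
def diag (l : List (Fin 13)) (x2 : ℕ) : ℕ :=
  ((col3 l (ctr x2)).filter (fun t => t.2.1 == t.2.2)).length

/-- The off-diagonal contributions. -/
def off (l : List (Fin 13)) (x2 : ℕ) : List (ℕ × ℕ × ℕ) :=
  (col3 l (ctr x2)).filter (fun t => !(t.2.1 == t.2.2))

lemma sum2_congr {l : List (Fin 13)} (hl : ∀ i ∈ l, 2 ≤ i.val) {F F' : ℕ → ℕ → ℤ}
    (h : ∀ u w, good u → good w → F u w = F' u w) : sum2 l F = sum2 l F' := by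
  induction l generalizing F F' with
  | nil => exact h 0 0 good_zero good_zero
  | cons i l ih =>
    have hi : good (2 ^ i.val) := good_pow i (hl i (by simp))
    have hl' : ∀ j ∈ l, 2 ≤ j.val := fun j hj => hl j (by simp [hj])
    simp only [sum2]
    rw [ih hl' (fun u w hu hw => h _ _ (good_or hu hi) hw),
      ih hl' (fun u w hu hw => h _ _ hu (good_or hw hi))]

lemma sum3_congr {l : List (Fin 13)} (hl : ∀ i ∈ l, 2 ≤ i.val) {F F' : ℕ → ℕ → ℕ → ℤ}
    (h : ∀ s u w, good s → good u → good w → F s u w = F' s u w) : sum3 l F = sum3 l F' := by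
  induction l generalizing F F' with
  | nil => exact h 0 0 0 good_zero good_zero good_zero
  | cons i l ih =>
    have hi : good (2 ^ i.val) := good_pow i (hl i (by simp))
    have hl' : ∀ j ∈ l, 2 ≤ j.val := fun j hj => hl j (by simp [hj])
    simp only [sum3]
    rw [ih hl' (fun s u w hs hu hw => h _ _ _ (good_or hs hi) hu hw),
      ih hl' (fun s u w hs hu hw => h _ _ _ hs (good_or hu hi) hw),
      ih hl' (fun s u w hs hu hw => h _ _ _ hs hu (good_or hw hi))]

open Classical in
/-- Coefficient comparison. -/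
lemma key (c : Finset (Fin 13) → Finset (Fin 13) → ℤˣ)
    (hc : rayleighDiff ends 0 1 =
      ∑ S : Finset (Fin 13) with ((0 : Fin 13) ∉ S ∧ (1 : Fin 13) ∉ S ∧
          ∃ C, IsCycle ends C ∧ insert 0 (insert 1 S) ⊆ C),
        (∏ g ∈ S, X g) *
          (∑ A : Finset (Fin 13), ∑ C : Finset (Fin 13) with Admissible ends 0 1 S A C,
            MvPolynomial.C ((c S C : ℤˣ) : ℤ) * ∏ g ∈ A \ S, X g) ^ 2)
    (l : List (Fin 13)) (x2 : ℕ) (hnd : l.Nodup) (hl : ∀ i ∈ l, 2 ≤ i.val)
    (hx2 : good x2) (hdis : ∀ i ∈ l, x2.testBit i.val = false) :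
    lhs l x2 = (diag l x2 : ℤ) + ((off l x2).map (fun t => sg c t.1 t.2.1 * sg c t.1 t.2.2)).sum := by
  have hd : Disjoint l.toFinset (fs 13 x2) := by
    rw [Finset.disjoint_left]
    intro i hi hi2
    rw [mem_fs] at hi2
    rw [hdis i (by simpa using hi)] at hi2
    exact absurd hi2 (by simp)
  have hxm := good_notMem hx2
  have hl0 : (0 : Fin 13) ∉ l.toFinset := by
    intro h
    have := hl 0 (by simpa using h)
    simp at this
  have hl1 : (1 : Fin 13) ∉ l.toFinset := by
    intro h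
    have := hl 1 (by simpa using h)
    simp at this
  have h1 := congrArg (coeff (ex l.toFinset + (ex (fs 13 x2) + ex (fs 13 x2)))) hc
  rw [coeff_rayleigh ends (by decide) hd hl0 hxm.1 hl1 hxm.2] at h1
  have h2 := coeff_sos (fun S A C => ((0 : Fin 13) ∉ S ∧ (1 : Fin 13) ∉ S) ∧
      Admissible ends 0 1 S A C)
    (fun S => (0 : Fin 13) ∉ S ∧ (1 : Fin 13) ∉ S ∧
      ∃ C, IsCycle ends C ∧ insert 0 (insert 1 S) ⊆ C)
    (fun S A C h => adm_sub S A C h.2 h.1)
    (fun S A C h => ⟨h.1.1, h.1.2, C, h.2.2.2.2.1.1, h.2.2.2.2.2⟩) c hd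
  have h3 : (∑ S : Finset (Fin 13) with ((0 : Fin 13) ∉ S ∧ (1 : Fin 13) ∉ S ∧
          ∃ C, IsCycle ends C ∧ insert 0 (insert 1 S) ⊆ C),
        (∏ g ∈ S, X g) *
          (∑ A : Finset (Fin 13), ∑ C : Finset (Fin 13) with Admissible ends 0 1 S A C,
            MvPolynomial.C ((c S C : ℤˣ) : ℤ) * ∏ g ∈ A \ S, X g) ^ 2 :
            MvPolynomial (Fin 13) ℤ)
      = ∑ S : Finset (Fin 13) with ((0 : Fin 13) ∉ S ∧ (1 : Fin 13) ∉ S ∧
          ∃ C, IsCycle ends C ∧ insert 0 (insert 1 S) ⊆ C),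
        (∏ g ∈ S, X g) *
          (∑ A : Finset (Fin 13), ∑ C : Finset (Fin 13) with
            (((0 : Fin 13) ∉ S ∧ (1 : Fin 13) ∉ S) ∧ Admissible ends 0 1 S A C),
            MvPolynomial.C ((c S C : ℤˣ) : ℤ) * ∏ g ∈ A \ S, X g) ^ 2 := by
    refine Finset.sum_congr rfl (fun S hS => ?_)
    rw [Finset.mem_filter] at hS
    have h4 : ((0 : Fin 13) ∉ S ∧ (1 : Fin 13) ∉ S) := ⟨hS.2.1, hS.2.2.1⟩
    have hfil : ∀ A, (Finset.univ.filter (fun C => Admissible ends 0 1 S A C))
        = Finset.univ.filter (fun C => ((0 : Fin 13) ∉ S ∧ (1 : Fin 13) ∉ S) ∧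
            Admissible ends 0 1 S A C) := by
      intro A
      ext C
      simp only [Finset.mem_filter, Finset.mem_univ, true_and]
      exact ⟨fun h => ⟨h4, h⟩, fun h => h.2⟩
    simp only [hfil]
  rw [h3, h2] at h1
  rw [sum_powerset_eq_sum2 l hnd (fun U W =>
          ((if IsForest ends (insert 0 (U ∪ fs 13 x2)) then 1 else 0) *
            (if IsForest ends (insert 1 (W ∪ fs 13 x2)) then 1 else 0)
          - (if IsForest ends (U ∪ fs 13 x2) then 1 else 0) *
            (if IsForest ends (insert 1 (insert 0 (W ∪ fs 13 x2))) then 1 else 0))),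
    sum_powerset_eq_sum3 l hnd (fun S U W =>
      (∑ C : Finset (Fin 13) with (((0 : Fin 13) ∉ S ∧ (1 : Fin 13) ∉ S) ∧
        Admissible ends 0 1 S (S ∪ (U ∪ fs 13 x2)) C), ((c S C : ℤˣ) : ℤ)) *
      (∑ C : Finset (Fin 13) with (((0 : Fin 13) ∉ S ∧ (1 : Fin 13) ∉ S) ∧
        Admissible ends 0 1 S (S ∪ (W ∪ fs 13 x2)) C), ((c S C : ℤˣ) : ℤ)))] at h1
  have h5 : lhs l x2 = sum2 l (fun u w =>
          ((if IsForest ends (insert 0 (fs 13 u ∪ fs 13 x2)) then 1 else 0) *
            (if IsForest ends (insert 1 (fs 13 w ∪ fs 13 x2)) then 1 else 0)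
          - (if IsForest ends (fs 13 u ∪ fs 13 x2) then 1 else 0) *
            (if IsForest ends (insert 1 (insert 0 (fs 13 w ∪ fs 13 x2))) then 1 else 0))) := by
    unfold lhs
    refine sum2_congr hl (fun u w hu hw => ?_)
    have e1 : insert 0 (fs 13 u ∪ fs 13 x2) = fs 13 ((u ||| x2) ||| 1) := by
      have : fs 13 1 = {0} := by decide +kernel
      rw [fs_or, fs_or, this, Finset.union_comm _ {0}, Finset.insert_eq]
    have e2 : insert 1 (fs 13 w ∪ fs 13 x2) = fs 13 ((w ||| x2) ||| 2) := by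
      have : fs 13 2 = {1} := by decide +kernel
      rw [fs_or, fs_or, this, Finset.union_comm _ {1}, Finset.insert_eq]
    have e3 : fs 13 u ∪ fs 13 x2 = fs 13 (u ||| x2) := (fs_or _ _ _).symm
    have e4 : insert 1 (insert 0 (fs 13 w ∪ fs 13 x2)) = fs 13 ((w ||| x2) ||| 3) := by
      rw [fs_or_three, Finset.insert_comm, fs_or]
    have g1 := good_or hu hx2
    have g2 := good_or hw hx2
    rw [e1, e2, e3, e4]
    simp only [isForest_iff]
  have h6 : sum3 l (fun s u w =>
      (∑ C : Finset (Fin 13) with (((0 : Fin 13) ∉ fs 13 s ∧ (1 : Fin 13) ∉ fs 13 s) ∧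
        Admissible ends 0 1 (fs 13 s) (fs 13 s ∪ (fs 13 u ∪ fs 13 x2)) C),
          ((c (fs 13 s) C : ℤˣ) : ℤ)) *
      (∑ C : Finset (Fin 13) with (((0 : Fin 13) ∉ fs 13 s ∧ (1 : Fin 13) ∉ fs 13 s) ∧
        Admissible ends 0 1 (fs 13 s) (fs 13 s ∪ (fs 13 w ∪ fs 13 x2)) C),
          ((c (fs 13 s) C : ℤˣ) : ℤ)))
      = sum3 l (fun s u w =>
          ((ctr x2 s u w).map (fun t => sg c t.1 t.2.1 * sg c t.1 t.2.2)).sum) := by
    refine sum3_congr hl (fun s u w hs hu hw => ?_)
    have hn := good_notMem hs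
    have e1 : fs 13 s ∪ (fs 13 u ∪ fs 13 x2) = fs 13 (s ||| (u ||| x2)) := by
      rw [fs_or, fs_or]
    have e2 : fs 13 s ∪ (fs 13 w ∪ fs 13 x2) = fs 13 (s ||| (w ||| x2)) := by
      rw [fs_or, fs_or]
    rw [e1, e2]
    simp only [hn, not_false_eq_true, and_self, true_and]
    rw [adm_sum c hs (good_or hs (good_or hu hx2)), adm_sum c hs (good_or hs (good_or hw hx2))]
    unfold ctr
    by_cases a1 : idx (s ||| (u ||| x2)) = 0
    · simp [a1]
    · by_cases a2 : s &&& cc (idx (s ||| (u ||| x2))) = s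
      · by_cases a3 : idx (s ||| (w ||| x2)) = 0
        · simp [a3]
        · by_cases a4 : s &&& cc (idx (s ||| (w ||| x2))) = s
          · simp [a1, a2, a3, a4]
          · simp [a4]
      · simp [a2]
  rw [h5, h1, h6, sum3_eq_col3, sum_split (sg c) (sg_sq c)]
  rfl

lemma lhs_0 : lhs [4, 5, 7, 8, 12] 2048 = -2 := by decide +kernel
lemma diag_0 : diag [4, 5, 7, 8, 12] 2048 = 0 := by decide +kernel
lemma off_0 : off [4, 5, 7, 8, 12] 2048 = [(0, 1, 4), (0, 4, 1)] := by decide +kernel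

lemma lhs_1 : lhs [2, 3, 4, 6, 12] 160 = 8 := by decide +kernel
lemma diag_1 : diag [2, 3, 4, 6, 12] 160 = 6 := by decide +kernel
lemma off_1 : off [2, 3, 4, 6, 12] 160 = [(16, 5, 1), (16, 1, 5)] := by decide +kernel

lemma lhs_2 : lhs [2, 4, 6, 8, 11, 12] 8 = 16 := by decide +kernel
lemma diag_2 : diag [2, 4, 6, 8, 11, 12] 8 = 14 := by decide +kernel
lemma off_2 : off [2, 4, 6, 8, 11, 12] 8 = [(4096, 6, 1), (4096, 1, 6)] := by decide +kernel

lemma lhs_3 : lhs [2, 6, 7, 9, 10, 12] 2304 = -2 := by decide +kernel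
lemma diag_3 : diag [2, 6, 7, 9, 10, 12] 2304 = 0 := by decide +kernel
lemma off_3 : off [2, 6, 7, 9, 10, 12] 2304 = [(4, 8, 2), (4, 2, 8)] := by decide +kernel

lemma lhs_4 : lhs [2, 3, 7, 9, 10, 12] 256 = 8 := by decide +kernel
lemma diag_4 : diag [2, 3, 7, 9, 10, 12] 256 = 6 := by decide +kernel
lemma off_4 : off [2, 3, 7, 9, 10, 12] 256 = [(516, 7, 2), (516, 2, 7)] := by decide +kernel

lemma lhs_5 : lhs [2, 3, 9, 12] 2368 = 2 := by decide +kernel
lemma diag_5 : diag [2, 3, 9, 12] 2368 = 0 := by decide +kernel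
lemma off_5 : off [2, 3, 9, 12] 2368 = [(4100, 6, 2), (4100, 2, 6)] := by decide +kernel

lemma lhs_6 : lhs [3, 4, 5, 9, 10] 448 = -2 := by decide +kernel
lemma diag_6 : diag [3, 4, 5, 9, 10] 448 = 0 := by decide +kernel
lemma off_6 : off [3, 4, 5, 9, 10] 448 = [(8, 3, 9), (8, 9, 3)] := by decide +kernel

lemma lhs_7 : lhs [3, 4, 5, 10] 196 = 2 := by decide +kernel
lemma diag_7 : diag [3, 4, 5, 10] 196 = 0 := by decide +kernel
lemma off_7 : off [3, 4, 5, 10] 196 = [(24, 5, 3), (24, 3, 5)] := by decide +kernel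

lemma lhs_8 : lhs [3, 4, 8, 10] 644 = 2 := by decide +kernel
lemma diag_8 : diag [3, 4, 8, 10] 644 = 0 := by decide +kernel
lemma off_8 : off [3, 4, 8, 10] 644 = [(1032, 3, 7), (1032, 7, 3)] := by decide +kernel

lemma lhs_9 : lhs [2, 3, 4, 5, 7, 8, 11, 12] 64 = 4 := by decide +kernel
lemma diag_9 : diag [2, 3, 4, 5, 7, 8, 11, 12] 64 = 8 := by decide +kernel
lemma off_9 : off [2, 3, 4, 5, 7, 8, 11, 12] 64 = [(12, 5, 6), (12, 6, 5), (16, 5, 1), (0, 1, 4), (4096, 6, 1), (0, 1, 4), (0, 4, 1), (0, 1, 4), (0, 4, 1), (16, 1, 5), (4096, 1, 6), (0, 4, 1)] := by decide +kernel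

lemma lhs_10 : lhs [2, 3, 6, 7, 9, 10, 11, 12] 256 = 0 := by decide +kernel
lemma diag_10 : diag [2, 3, 6, 7, 9, 10, 11, 12] 256 = 0 := by decide +kernel
lemma off_10 : off [2, 3, 6, 7, 9, 10, 11, 12] 256 = [(12, 6, 7), (12, 7, 6), (4100, 6, 2), (516, 7, 2), (4, 2, 8), (4, 8, 2), (516, 2, 7), (4100, 2, 6)] := by decide +kernel

lemma lhs_11 : lhs [2, 3, 4, 5, 6, 8, 9, 10] 128 = 0 := by decide +kernel
lemma diag_11 : diag [2, 3, 4, 5, 6, 8, 9, 10] 128 = 0 := by decide +kernel
lemma off_11 : off [2, 3, 4, 5, 6, 8, 9, 10] 128 = [(12, 5, 7), (12, 7, 5), (24, 5, 3), (8, 3, 9), (1032, 7, 3), (24, 3, 5), (1032, 3, 7), (8, 9, 3)] := by decide +kernel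

/-- The subsets of the edge set `{0, …, 8}` with all degrees `0` or `2` which contain the edges `0`
and `1`: only the cycle `{0, …, 7}`. -/
lemma small_check : allBelow 512 (fun r => !(reg2 r) || !(r &&& 3 == 3) || (r == 255)) = true := by
  decide +kernel

lemma reg2_of_cycle {r : ℕ} (hC : IsCycle ends (fs 13 r)) : reg2 r = true := by
  have hd : ∀ x, degB r x = 0 ∨ degB r x = 2 := by
    intro x
    rw [degB_eq]
    exact cycle_deg _ hC x
  simp only [reg2, Bool.and_eq_true, Bool.or_eq_true, beq_iff_eq]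
  exact ⟨⟨⟨⟨⟨⟨⟨hd 0, hd 1⟩, hd 2⟩, hd 3⟩, hd 4⟩, hd 5⟩, hd 6⟩, hd 7⟩

/-- For the spanning tree `A = {2, …, 8}` the only cycle `C` with `{0,1} ⊆ C ⊆ A ∪ {0,1}` is
`{0, …, 7}`. -/
lemma literal_iff (C : Finset (Fin 13)) :
    LiteralAdmissible ends 0 1 ∅ (fs 13 508) C ↔ C = fs 13 255 := by
  have h511 : insert (0 : Fin 13) (insert 1 (fs 13 508)) = fs 13 511 := by decide +kernel
  have key' : ∀ C' : Finset (Fin 13), IsCycle ends C' → insert 0 (insert 1 ∅) ⊆ C' →
      C' ⊆ fs 13 511 → C' = fs 13 255 := by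
    intro C' h1 h2 h3
    obtain ⟨r, hr, rfl⟩ := fs_surj 13 C'
    have h4 := (fs_subset hr).mp h3
    have h5 : r < 512 := by
      rw [← h4]
      exact lt_of_le_of_lt Nat.and_le_right (by norm_num)
    have h6 := (allBelow_iff _ _).mp small_check r h5
    have h7 : r &&& 3 = 3 := by
      have h8 : fs 13 3 ⊆ fs 13 r := by
        rw [fs_three]
        exact h2
      rw [Nat.land_comm]
      exact (fs_subset (by norm_num)).mp h8
    rw [reg2_of_cycle h1, h7] at h6
    have h9 : r = 255 := by simpa using h6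
    rw [h9]
  have hc255 : IsCycle ends (fs 13 255) := cycL_isCycle 255 (by decide)
  have hs255 : insert (0 : Fin 13) (insert 1 ∅) ⊆ fs 13 255 := by decide +kernel
  have ht255 : fs 13 255 ⊆ fs 13 511 := by decide +kernel
  constructor
  · rintro ⟨-, -, -, h1, h2, h3, -⟩
    rw [h511] at h3
    exact key' C h1 h2 h3
  · rintro rfl
    refine ⟨by decide +kernel, by decide +kernel, (isForest_iff 508).mpr (by decide +kernel),
      hc255, hs255, ?_, ?_⟩
    · rw [h511]
      exact ht255
    · intro C' h1 h2 h3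
      rw [h511] at h3
      exact key' C' h1 h2 h3

lemma literal_sub (S A C : Finset (Fin 13)) (h : LiteralAdmissible ends 0 1 S A C)
    (hS : (0 : Fin 13) ∉ S ∧ (1 : Fin 13) ∉ S) : S ⊆ A := by
  intro g hg
  have h1 := h.2.2.2.2.2.1 (h.2.2.2.2.1 (Finset.mem_insert_of_mem (Finset.mem_insert_of_mem hg)))
  rw [Finset.mem_insert, Finset.mem_insert] at h1
  rcases h1 with h1 | h1 | h1
  · subst h1; exact absurd hg hS.1
  · subst h1; exact absurd hg hS.2
  · exact h1

/-- With the word for word reading of `𝒜(S)` the coefficient of `y^{2A}`, `A = {2, …, 8}` a spanning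
tree, is `0` on the left side and `1` on the right side. -/
theorem not_literal : ¬ IsLiteralSOS cubePlusDiagonal 0 1 := by
  classical
  rintro ⟨c, hc⟩
  have hends : cubePlusDiagonal = ends := rfl
  rw [hends] at hc
  have hd : Disjoint (∅ : Finset (Fin 13)) (fs 13 508) := Finset.disjoint_empty_left _
  have hx0 : (0 : Fin 13) ∉ fs 13 508 := by decide +kernel
  have hx1 : (1 : Fin 13) ∉ fs 13 508 := by decide +kernel
  have h1 := congrArg (coeff (ex (∅ : Finset (Fin 13)) + (ex (fs 13 508) + ex (fs 13 508)))) hc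
  rw [coeff_rayleigh ends (by decide) hd (Finset.notMem_empty _) hx0 (Finset.notMem_empty _) hx1] at h1
  have h2 := coeff_sos (fun S A C => ((0 : Fin 13) ∉ S ∧ (1 : Fin 13) ∉ S) ∧
      LiteralAdmissible ends 0 1 S A C)
    (fun S => (0 : Fin 13) ∉ S ∧ (1 : Fin 13) ∉ S ∧
      ∃ C, IsCycle ends C ∧ insert 0 (insert 1 S) ⊆ C)
    (fun S A C h => literal_sub S A C h.2 h.1)
    (fun S A C h => ⟨h.1.1, h.1.2, C, h.2.2.2.2.1, h.2.2.2.2.2.1⟩) c hd
  have h3 : (∑ S : Finset (Fin 13) with ((0 : Fin 13) ∉ S ∧ (1 : Fin 13) ∉ S ∧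
          ∃ C, IsCycle ends C ∧ insert 0 (insert 1 S) ⊆ C),
        (∏ g ∈ S, X g) *
          (∑ A : Finset (Fin 13), ∑ C : Finset (Fin 13) with LiteralAdmissible ends 0 1 S A C,
            MvPolynomial.C ((c S C : ℤˣ) : ℤ) * ∏ g ∈ A \ S, X g) ^ 2 :
            MvPolynomial (Fin 13) ℤ)
      = ∑ S : Finset (Fin 13) with ((0 : Fin 13) ∉ S ∧ (1 : Fin 13) ∉ S ∧
          ∃ C, IsCycle ends C ∧ insert 0 (insert 1 S) ⊆ C),
        (∏ g ∈ S, X g) *
          (∑ A : Finset (Fin 13), ∑ C : Finset (Fin 13) with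
            (((0 : Fin 13) ∉ S ∧ (1 : Fin 13) ∉ S) ∧ LiteralAdmissible ends 0 1 S A C),
            MvPolynomial.C ((c S C : ℤˣ) : ℤ) * ∏ g ∈ A \ S, X g) ^ 2 := by
    refine Finset.sum_congr rfl (fun S hS => ?_)
    rw [Finset.mem_filter] at hS
    have h4 : ((0 : Fin 13) ∉ S ∧ (1 : Fin 13) ∉ S) := ⟨hS.2.1, hS.2.2.1⟩
    have hfil : ∀ A, (Finset.univ.filter (fun C => LiteralAdmissible ends 0 1 S A C))
        = Finset.univ.filter (fun C => ((0 : Fin 13) ∉ S ∧ (1 : Fin 13) ∉ S) ∧
            LiteralAdmissible ends 0 1 S A C) := by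
      intro A
      ext C
      simp only [Finset.mem_filter, Finset.mem_univ, true_and]
      exact ⟨fun h => ⟨h4, h⟩, fun h => h.2⟩
    simp only [hfil]
  rw [h3, h2] at h1
  simp only [Finset.powerset_empty, Finset.sum_singleton, Finset.empty_sdiff,
    Finset.empty_union] at h1
  have hE : (Finset.univ.filter (fun C : Finset (Fin 13) =>
      ((0 : Fin 13) ∉ (∅ : Finset (Fin 13)) ∧ (1 : Fin 13) ∉ (∅ : Finset (Fin 13))) ∧
        LiteralAdmissible ends 0 1 ∅ (fs 13 508) C)) = {fs 13 255} := by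
    ext C
    simp only [Finset.mem_filter, Finset.mem_univ, true_and, Finset.mem_singleton,
      Finset.notMem_empty, not_false_eq_true, and_self, literal_iff]
  rw [hE, Finset.sum_singleton] at h1
  have f0 : ¬ IsForest ends (insert 0 (fs 13 508)) := by
    have e0 : insert (0 : Fin 13) (fs 13 508) = fs 13 509 := by decide +kernel
    rw [e0, isForest_iff]
    decide +kernel
  have f1 : ¬ IsForest ends (insert 1 (insert 0 (fs 13 508))) := by
    have e0 : insert (1 : Fin 13) (insert 0 (fs 13 508)) = fs 13 511 := by decide +kernel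
    rw [e0, isForest_iff]
    decide +kernel
  rw [if_neg f0, if_neg f1, zero_mul, mul_zero, sub_zero] at h1
  have h5 : ((c ∅ (fs 13 255) : ℤˣ) : ℤ) * ((c ∅ (fs 13 255) : ℤˣ) : ℤ) = 1 := by
    rw [← Units.val_mul, Int.units_mul_self]
    rfl
  rw [h5] at h1
  norm_num at h1

theorem result : Function.Injective cubePlusDiagonal ∧ (∀ g, ¬ (cubePlusDiagonal g).IsDiag) ∧
    ¬ IsSOS cubePlusDiagonal 0 1 ∧ ¬ IsLiteralSOS cubePlusDiagonal 0 1 := by
  refine ⟨by decide +kernel, by decide +kernel, ?_, not_literal⟩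
  rintro ⟨c, hc⟩
  have hends : cubePlusDiagonal = ends := rfl
  rw [hends] at hc
  have k0 := key c hc [4, 5, 7, 8, 12] 2048 (by decide) (by decide) ⟨by norm_num, by decide⟩ (by decide)
  rw [lhs_0, diag_0, off_0] at k0
  simp only [List.map_cons, List.map_nil, List.sum_cons, List.sum_nil, add_zero] at k0
  push_cast at k0
  have k1 := key c hc [2, 3, 4, 6, 12] 160 (by decide) (by decide) ⟨by norm_num, by decide⟩ (by decide)
  rw [lhs_1, diag_1, off_1] at k1
  simp only [List.map_cons, List.map_nil, List.sum_cons, List.sum_nil, add_zero] at k1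
  push_cast at k1
  have k2 := key c hc [2, 4, 6, 8, 11, 12] 8 (by decide) (by decide) ⟨by norm_num, by decide⟩ (by decide)
  rw [lhs_2, diag_2, off_2] at k2
  simp only [List.map_cons, List.map_nil, List.sum_cons, List.sum_nil, add_zero] at k2
  push_cast at k2
  have k3 := key c hc [2, 6, 7, 9, 10, 12] 2304 (by decide) (by decide) ⟨by norm_num, by decide⟩ (by decide)
  rw [lhs_3, diag_3, off_3] at k3
  simp only [List.map_cons, List.map_nil, List.sum_cons, List.sum_nil, add_zero] at k3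
  push_cast at k3
  have k4 := key c hc [2, 3, 7, 9, 10, 12] 256 (by decide) (by decide) ⟨by norm_num, by decide⟩ (by decide)
  rw [lhs_4, diag_4, off_4] at k4
  simp only [List.map_cons, List.map_nil, List.sum_cons, List.sum_nil, add_zero] at k4
  push_cast at k4
  have k5 := key c hc [2, 3, 9, 12] 2368 (by decide) (by decide) ⟨by norm_num, by decide⟩ (by decide)
  rw [lhs_5, diag_5, off_5] at k5
  simp only [List.map_cons, List.map_nil, List.sum_cons, List.sum_nil, add_zero] at k5
  push_cast at k5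
  have k6 := key c hc [3, 4, 5, 9, 10] 448 (by decide) (by decide) ⟨by norm_num, by decide⟩ (by decide)
  rw [lhs_6, diag_6, off_6] at k6
  simp only [List.map_cons, List.map_nil, List.sum_cons, List.sum_nil, add_zero] at k6
  push_cast at k6
  have k7 := key c hc [3, 4, 5, 10] 196 (by decide) (by decide) ⟨by norm_num, by decide⟩ (by decide)
  rw [lhs_7, diag_7, off_7] at k7
  simp only [List.map_cons, List.map_nil, List.sum_cons, List.sum_nil, add_zero] at k7
  push_cast at k7
  have k8 := key c hc [3, 4, 8, 10] 644 (by decide) (by decide) ⟨by norm_num, by decide⟩ (by decide)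
  rw [lhs_8, diag_8, off_8] at k8
  simp only [List.map_cons, List.map_nil, List.sum_cons, List.sum_nil, add_zero] at k8
  push_cast at k8
  have k9 := key c hc [2, 3, 4, 5, 7, 8, 11, 12] 64 (by decide) (by decide) ⟨by norm_num, by decide⟩ (by decide)
  rw [lhs_9, diag_9, off_9] at k9
  simp only [List.map_cons, List.map_nil, List.sum_cons, List.sum_nil, add_zero] at k9
  push_cast at k9
  have k10 := key c hc [2, 3, 6, 7, 9, 10, 11, 12] 256 (by decide) (by decide) ⟨by norm_num, by decide⟩ (by decide)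
  rw [lhs_10, diag_10, off_10] at k10
  simp only [List.map_cons, List.map_nil, List.sum_cons, List.sum_nil, add_zero] at k10
  push_cast at k10
  have k11 := key c hc [2, 3, 4, 5, 6, 8, 9, 10] 128 (by decide) (by decide) ⟨by norm_num, by decide⟩ (by decide)
  rw [lhs_11, diag_11, off_11] at k11
  simp only [List.map_cons, List.map_nil, List.sum_cons, List.sum_nil, add_zero] at k11
  push_cast at k11
  have s1 := sg_sq c 12 7
  have r1 : sg c 12 6 * sg c 12 7 = -1 := by linarith [k10, k3, k4, k5, mul_comm (sg c 12 6) (sg c 12 7), mul_comm (sg c 4100 6) (sg c 4100 2), mul_comm (sg c 516 7) (sg c 516 2), mul_comm (sg c 4 2) (sg c 4 8)]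
  have r2 : sg c 12 5 * sg c 12 7 = -1 := by linarith [k11, k6, k7, k8, mul_comm (sg c 12 5) (sg c 12 7), mul_comm (sg c 24 5) (sg c 24 3), mul_comm (sg c 8 3) (sg c 8 9), mul_comm (sg c 1032 7) (sg c 1032 3)]
  have r3 : sg c 12 5 * sg c 12 6 = -1 := by linarith [k9, k0, k1, k2, mul_comm (sg c 12 5) (sg c 12 6), mul_comm (sg c 16 5) (sg c 16 1), mul_comm (sg c 0 1) (sg c 0 4), mul_comm (sg c 4096 6) (sg c 4096 1)]
  have r4 : (sg c 12 6 * sg c 12 7) * (sg c 12 5 * sg c 12 7)
      = (sg c 12 5 * sg c 12 6) * (sg c 12 7 * sg c 12 7) := by ring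
  rw [r1, r2, r3, s1] at r4
  norm_num at r4

end Pool.Agent.Results.MP_b10ab5_co.CubePlusDiagonal
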